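import Mathlib
import Pool.Agent.R621.HS.Core
import Pool.Agent.R621.HS.Cls

set_option autoImplicit false

/-!
There is a hyperarithmetic class of computable structures with, up to isomorphism, exactly one
member of noncomputable Scott rank. The class consists of the computable structures isomorphic to
a computably categorical structure whose orbits are not hyperarithmetic.
-/

namespace Pool.Agent.Results.MP_9125cf_lc.UniqueHighRank

open Pool.Agent.Helper941.Hyp Pool.Agent.R621.HS

/-- A check of the definition of the Scott rank: the infimum in it is attained. -/
theorem scott_rank_attained {ar : ℕ → ℕ} (A : Struct ar) :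
    ∀ a, ∃ β < SR A, ∀ b, BF A A β a b → Orb A a b := sr_mem A

/-- A check of the definition of the back-and-forth relations: automorphic tuples are equivalent
at all levels. -/
theorem automorphic_equivalent {ar : ℕ → ℕ} (A : Struct ar) (a b : List ℕ) (h : Orb A a b)
    (α : Ordinal.{0}) : BF A A α a b := bf_of_orb h α

/-- There is a hyperarithmetic class `K` of computable structures, in a computable language, which
has a member whose Scott rank is not a computable ordinal, and in which any two members with this
property are isomorphic. -/
theorem result : ∃ ar : ℕ → ℕ, Computable ar ∧ ∃ K : Set (Struct ar), HypClass K ∧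
    (∃ A ∈ K, ¬ ComputableOrd (SR A)) ∧
    ∀ A ∈ K, ∀ B ∈ K, ¬ ComputableOrd (SR A) → ¬ ComputableOrd (SR B) → Iso A B :=
  ⟨ar2, Computable.const 2, KAA, kaa_hyp, ⟨toS AA, aa_mem, sr_aa⟩,
    fun _ hA _ hB _ _ => hA.2.symm.trans hB.2⟩

end Pool.Agent.Results.MP_9125cf_lc.UniqueHighRank
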